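import Pool.Agent.Helper17.RZ.St3

/-!
# Project RZ (MP_77656e_ag), module C10: every bundle is a quotient of copies of `O(-N)`
-/

set_option autoImplicit false

namespace Pool.Agent.Helper43.RZ

open Pool.Agent.Helper17.RZ

universe u v

noncomputable section

variable {k : Type u} [Field k] {K : Type u} [Field K] [Algebra k K]

theorem ratio_mem (Z : ProjVar k K) (σ : Finset Z.I) (i j : Z.I) (hj : j ∈ σ) :
    Z.a i / Z.a j ∈ Z.A σ := Algebra.subset_adjoin ⟨j, hj, i, rfl⟩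

/-- Functions on the chart `{i, j}` become regular on `{j}` after multiplication with a high power
of `a i / a j`. -/
theorem pow_mul_mem (Z : ProjVar k K) (i j : Z.I) (c : K) (hc : c ∈ Z.A {i, j}) :
    ∃ N₀ : ℕ, ∀ N, N₀ ≤ N → (Z.a i / Z.a j) ^ N * c ∈ Z.A {j} := by
  have hij : Z.a i / Z.a j ∈ Z.A {j} := ratio_mem Z {j} i j (by simp)
  refine Algebra.adjoin_induction (p := fun c _ => ∃ N₀ : ℕ, ∀ N, N₀ ≤ N →
    (Z.a i / Z.a j) ^ N * c ∈ Z.A {j}) ?_ ?_ ?_ ?_ hc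
  · rintro x ⟨m, hm, l, rfl⟩
    rw [Finset.mem_insert, Finset.mem_singleton] at hm
    rcases hm with rfl | rfl
    · refine ⟨1, fun N hN => ?_⟩
      obtain ⟨n, rfl⟩ := Nat.exists_eq_add_of_le' hN
      have : (Z.a m / Z.a j) ^ (n + 1) * (Z.a l / Z.a m) =
          (Z.a m / Z.a j) ^ n * (Z.a l / Z.a j) := by
        rw [pow_succ]
        field_simp [Z.a_ne m, Z.a_ne j]
      rw [this]
      exact (Z.A {j}).mul_mem ((Z.A {j}).pow_mem hij n) (ratio_mem Z {j} l j (by simp))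
    · exact ⟨0, fun N _ => (Z.A {m}).mul_mem ((Z.A {m}).pow_mem hij N)
        (ratio_mem Z {m} l m (by simp))⟩
  · intro r
    exact ⟨0, fun N _ => (Z.A {j}).mul_mem ((Z.A {j}).pow_mem hij N)
      ((Z.A {j}).algebraMap_mem r)⟩
  · rintro x y _ _ ⟨N₁, h₁⟩ ⟨N₂, h₂⟩
    refine ⟨max N₁ N₂, fun N hN => ?_⟩
    rw [mul_add]
    exact (Z.A {j}).add_mem (h₁ N ((le_max_left _ _).trans hN)) (h₂ N ((le_max_right _ _).trans hN))
  · rintro x y _ _ ⟨N₁, h₁⟩ ⟨N₂, h₂⟩
    refine ⟨N₁ + N₂, fun N hN => ?_⟩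
    obtain ⟨n, rfl⟩ := Nat.exists_eq_add_of_le hN
    have : (Z.a i / Z.a j) ^ (N₁ + N₂ + n) * (x * y) =
        ((Z.a i / Z.a j) ^ N₁ * x) * ((Z.a i / Z.a j) ^ (N₂ + n) * y) := by
      rw [add_assoc, pow_add]; ring
    rw [this]
    exact (Z.A {j}).mul_mem (h₁ _ le_rfl) (h₂ _ (Nat.le_add_right _ _))

/-- Sections over `{i}` become sections over `{j}` after multiplication with a high power of
`a i / a j`. -/
theorem pow_smul_mem (Z : ProjVar k K) (V : Cplx Z) (i j : Z.I) (m : V.V) (hm : m ∈ V.lat {i}) :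
    ∃ N₀ : ℕ, ∀ N, N₀ ≤ N → (Z.a i / Z.a j) ^ N • m ∈ V.lat {j} := by
  have hij : Z.a i / Z.a j ∈ Z.A {j} := ratio_mem Z {j} i j (by simp)
  have h1 : m ∈ V.lat {i, j} := by
    rw [V.lat_loc {i} {i, j} ⟨i, by simp⟩ (by intro x hx; simp at hx; simp [hx])]
    exact Submodule.subset_span hm
  rw [V.lat_loc {j} {i, j} ⟨j, by simp⟩ (by intro x hx; simp at hx; simp [hx])] at h1
  refine Submodule.span_induction (p := fun m _ => ∃ N₀ : ℕ, ∀ N, N₀ ≤ N →
    (Z.a i / Z.a j) ^ N • m ∈ V.lat {j}) ?_ ?_ ?_ ?_ h1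
  · intro x hx
    refine ⟨0, fun N _ => ?_⟩
    exact (V.lat {j}).smul_mem (⟨_, (Z.A {j}).pow_mem hij N⟩ : Z.A {j}) hx
  · exact ⟨0, fun N _ => by rw [smul_zero]; exact (V.lat {j}).zero_mem⟩
  · rintro x y _ _ ⟨N₁, h₁⟩ ⟨N₂, h₂⟩
    refine ⟨max N₁ N₂, fun N hN => ?_⟩
    rw [smul_add]
    exact (V.lat {j}).add_mem (h₁ N ((le_max_left _ _).trans hN)) (h₂ N ((le_max_right _ _).trans hN))
  · rintro c x _ ⟨N₂, h₂⟩
    obtain ⟨N₁, h₁⟩ := pow_mul_mem Z i j c c.2
    refine ⟨N₁ + N₂, fun N hN => ?_⟩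
    obtain ⟨n, rfl⟩ := Nat.exists_eq_add_of_le hN
    have : (Z.a i / Z.a j) ^ (N₁ + N₂ + n) • (c • x) =
        (⟨(Z.a i / Z.a j) ^ N₁ * c, h₁ _ le_rfl⟩ : Z.A {j}) •
          ((Z.a i / Z.a j) ^ (N₂ + n) • x) := by
      change (Z.a i / Z.a j) ^ (N₁ + N₂ + n) • ((c : K) • x) =
        ((Z.a i / Z.a j) ^ N₁ * (c : K)) • ((Z.a i / Z.a j) ^ (N₂ + n) • x)
      rw [smul_smul, smul_smul]
      congr 1
      rw [add_assoc, pow_add]; ring
    rw [this]
    exact (V.lat {j}).smul_mem _ (h₂ _ (Nat.le_add_right _ _))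

/-- A map onto the sections over `σ`. -/
theorem lat_mono {Z : ProjVar k K} (V : Cplx Z) {σ τ : Finset Z.I} (hσ : σ.Nonempty) (h : σ ⊆ τ)
    {m : V.V} (hm : m ∈ V.lat σ) : m ∈ V.lat τ := by
  rw [V.lat_loc σ τ hσ h]
  exact Submodule.subset_span hm

theorem amp : LocFun.{u} → LocVec.{u} → Amp.{u} := by
  intro _ _ k _ K _ _ Z V _
  classical
  -- generators of the charts `{i}`
  have hgen : ∀ i : Z.I, ∃ (n : ℕ) (m : Fin n → V.lat {i}),
      Submodule.span (Z.A {i}) (Set.range m) = ⊤ := by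
    intro i
    have := V.lat_fin {i} ⟨i, by simp⟩
    exact Module.Finite.exists_fin
  choose n m hm using hgen
  have hb : ∀ (s : Σ i : Z.I, Fin (n i)) (j : Z.I), ∃ N₀ : ℕ, ∀ N, N₀ ≤ N →
      (Z.a s.1 / Z.a j) ^ N • ((m s.1 s.2 : V.lat {s.1}) : V.V) ∈ V.lat {j} :=
    fun s j => pow_smul_mem Z V s.1 j _ (m s.1 s.2).2
  choose f hf using hb
  refine ⟨∑ s, ∑ j, f s j, fun N hN => ?_⟩
  have hN' : ∀ s j, f s j ≤ N := by
    intro s j
    refine le_trans ?_ hN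
    refine le_trans ?_ (Finset.single_le_sum (f := fun s => ∑ j, f s j)
      (fun _ _ => Nat.zero_le _) (Finset.mem_univ s))
    exact Finset.single_le_sum (f := fun j => f s j) (fun _ _ => Nat.zero_le _) (Finset.mem_univ j)
  let S := Σ i : Z.I, Fin (n i)
  let e : S ≃ Fin (Fintype.card S) := Fintype.equivFin S
  let w : Fin (Fintype.card S) → V.V := fun r =>
    (Z.a (e.symm r).1) ^ N • ((m (e.symm r).1 (e.symm r).2 : V.lat {(e.symm r).1}) : V.V)
  let π : (Fin (Fintype.card S) → K) →ₗ[K] V.V := Fintype.linearCombination K w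
  have hπ : ∀ x, π x = ∑ r, x r • w r := fun x => Fintype.linearCombination_apply K w x
  refine ⟨Fintype.card S, π, fun σ hσ v => ?_⟩
  constructor
  · -- surjectivity
    obtain ⟨i, hi⟩ := hσ
    -- the image
    let M : Submodule (Z.A σ) V.V :=
      { carrier := {v | ∃ x ∈ (Z.ON N (Fintype.card S)).lat σ, π x = v}
        add_mem' := by
          rintro a b ⟨x, hx, rfl⟩ ⟨y, hy, rfl⟩
          exact ⟨x + y, ((Z.ON N (Fintype.card S)).lat σ).add_mem hx hy, map_add π x y⟩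
        zero_mem' := ⟨0, ((Z.ON N (Fintype.card S)).lat σ).zero_mem, map_zero π⟩
        smul_mem' := by
          rintro c _ ⟨x, hx, rfl⟩
          exact ⟨c • x, ((Z.ON N (Fintype.card S)).lat σ).smul_mem c hx,
            π.map_smul (c : K) x⟩ }
    have hle : V.lat σ ≤ M := by
      rw [V.lat_loc {i} σ ⟨i, by simp⟩ (by simpa using hi), Submodule.span_le]
      intro v hv
      have h1 : (⟨v, hv⟩ : V.lat {i}) ∈ Submodule.span (Z.A {i}) (Set.range (m i)) := by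
        rw [hm i]; trivial
      change v ∈ M
      refine Submodule.span_induction (p := fun (x : V.lat {i}) _ => (x : V.V) ∈ M) ?_ ?_ ?_ ?_ h1
      · rintro _ ⟨l, rfl⟩
        refine ⟨Pi.single (e ⟨i, l⟩) (Z.a i ^ N)⁻¹, ?_, ?_⟩
        · intro r j hj
          by_cases hr : r = e ⟨i, l⟩
          · subst hr
            rw [Pi.single_eq_same]
            have : (Z.a i ^ N)⁻¹ / (Z.a j ^ N)⁻¹ = (Z.a j / Z.a i) ^ N := by
              rw [div_pow]; field_simp
            rw [this]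
            exact (Z.A σ).pow_mem (ratio_mem Z σ j i hi) N
          · rw [Pi.single_eq_of_ne hr, zero_div]
            exact (Z.A σ).zero_mem
        · rw [hπ, Finset.sum_eq_single (e ⟨i, l⟩)]
          · rw [Pi.single_eq_same]
            change (Z.a i ^ N)⁻¹ • ((Z.a (e.symm (e ⟨i, l⟩)).1) ^ N •
              ((m (e.symm (e ⟨i, l⟩)).1 (e.symm (e ⟨i, l⟩)).2 : V.lat _) : V.V)) = _
            rw [Equiv.symm_apply_apply]
            change (Z.a i ^ N)⁻¹ • ((Z.a i) ^ N • ((m i l : V.lat {i}) : V.V)) = _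
            rw [smul_smul, inv_mul_cancel₀ (pow_ne_zero N (Z.a_ne i)), one_smul]
          · intro r _ hr
            rw [Pi.single_eq_of_ne hr, zero_smul]
          · intro h; exact absurd (Finset.mem_univ _) h
      · exact M.zero_mem
      · intro x y _ _ hx hy
        exact M.add_mem hx hy
      · intro c x _ hx
        exact M.smul_mem (⟨c, Z.A_mono (by simpa using hi) c.2⟩ : Z.A σ) hx
    exact fun hv => hle hv
  · obtain ⟨j, hj⟩ := hσ
    suffices key : ∀ x : Fin (Fintype.card S) → K,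
        (∀ r, ∀ i ∈ σ, x r / (Z.a i ^ N)⁻¹ ∈ Z.A σ) → π x ∈ V.lat σ by
      rintro ⟨x, hx, rfl⟩
      exact key x hx
    intro x hx
    rw [hπ]
    refine Submodule.sum_mem _ fun r _ => ?_
    have h1 : x r / (Z.a j ^ N)⁻¹ ∈ Z.A σ := hx r j hj
    have h2 : (Z.a (e.symm r).1 / Z.a j) ^ N •
        ((m (e.symm r).1 (e.symm r).2 : V.lat {(e.symm r).1}) : V.V) ∈ V.lat σ :=
      lat_mono V ⟨j, by simp⟩ (by simpa using hj) (hf (e.symm r) j N (hN' _ _))
    have h3 : x r • w r = (⟨_, h1⟩ : Z.A σ) • ((Z.a (e.symm r).1 / Z.a j) ^ N •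
        ((m (e.symm r).1 (e.symm r).2 : V.lat {(e.symm r).1}) : V.V)) := by
      change x r • (Z.a (e.symm r).1) ^ N •
          ((m (e.symm r).1 (e.symm r).2 : V.lat {(e.symm r).1}) : V.V) =
        (x r / (Z.a j ^ N)⁻¹) • ((Z.a (e.symm r).1 / Z.a j) ^ N •
          ((m (e.symm r).1 (e.symm r).2 : V.lat {(e.symm r).1}) : V.V))
      rw [smul_smul, smul_smul]
      congr 1
      rw [div_pow]
      field_simp [Z.a_ne j]
    rw [h3]
    exact (V.lat σ).smul_mem _ h2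

end

end Pool.Agent.Helper43.RZ
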