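import Pool.Agent.Helper17.RZ.St4

/-!
# Project RZ (MP_77656e_ag), module D4d: the resolution of the generator is a local homotopy equivalence
-/

set_option autoImplicit false

open MvPolynomial
open scoped Kronecker

namespace Pool.Agent.Helper43.RZ

open Pool.Agent.Helper17.RZ

universe u v

noncomputable section

variable {k : Type u} [Field k]

theorem mat_lin' {X Y : YObj k} (M : Matrix Y.J X.J (LL k)) :
    YObj.mat (YObj.lin (X := X) (Y := Y) M) = M := YObj.mat_lin M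

theorem mat_sub' {X Y : YObj k} (φ ψ : X.G.V →ₗ[LL k] Y.G.V) :
    YObj.mat (φ - ψ) = YObj.mat φ - YObj.mat ψ := rfl

theorem isDeg_lin {X Y : YObj k} (n : ℤ) (M : Matrix Y.J X.J (LL k))
    (hM : ∀ i j, M i j ≠ 0 → Y.gr i = X.gr j + n) :
    IsDeg (X := X.G) (Y := Y.G) n (YObj.lin (X := X) (Y := Y) M) := by
  intro i
  apply YObj.mat_injective
  rw [YObj.mat_comp, YObj.mat_comp, YObj.mat_pr, YObj.mat_pr, mat_lin']
  ext a b
  rw [Matrix.mul_diagonal, Matrix.diagonal_mul]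
  by_cases h : M a b = 0
  · simp [h]
  · have := hM a b h
    by_cases h1 : X.gr b = i
    · rw [if_pos h1, if_pos (by omega)]; ring
    · rw [if_neg h1, if_neg (by omega)]; ring

/-- equivariance of a matrix -/
def Eqv (X Y : YObj k) (ε : Matrix Y.J X.J (LL k)) : Prop :=
  ∀ a, (Y.rho a).map (algebraMap k (LL k)) * ε.map (ga k a) = ε * (X.rho a).map (algebraMap k (LL k))

theorem Eqv.tens {X Y X' Y' : YObj k} {ε : Matrix Y.J X.J (LL k)} {ε' : Matrix Y'.J X'.J (LL k)}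
    (h : Eqv X Y ε) (h' : Eqv X' Y' ε') : Eqv (X.tens X') (Y.tens Y') (ε ⊗ₖ ε') := by
  intro a
  have h1 : ((Y.tens Y').rho a).map (algebraMap k (LL k)) =
      (Y.rho a).map (algebraMap k (LL k)) ⊗ₖ (Y'.rho a).map (algebraMap k (LL k)) := by
    ext ⟨i, i'⟩ ⟨j, j'⟩
    exact map_mul (algebraMap k (LL k)) _ _
  have h2 : ((X.tens X').rho a).map (algebraMap k (LL k)) =
      (X.rho a).map (algebraMap k (LL k)) ⊗ₖ (X'.rho a).map (algebraMap k (LL k)) := by
    ext ⟨i, i'⟩ ⟨j, j'⟩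
    exact map_mul (algebraMap k (LL k)) _ _
  have h3 : (ε ⊗ₖ ε').map (ga k a) = ε.map (ga k a) ⊗ₖ ε'.map (ga k a) := by
    ext ⟨i, i'⟩ ⟨j, j'⟩
    exact map_mul (ga k a) _ _
  have e : ((Y.rho a).map (algebraMap k (LL k)) ⊗ₖ (Y'.rho a).map (algebraMap k (LL k))) *
      (ε.map (ga k a) ⊗ₖ ε'.map (ga k a)) =
      (ε ⊗ₖ ε') * ((X.rho a).map (algebraMap k (LL k)) ⊗ₖ (X'.rho a).map (algebraMap k (LL k))) := by
    rw [← Matrix.mul_kronecker_mul, ← Matrix.mul_kronecker_mul, h a, h' a]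
  refine (congrArg₂ (fun (A : Matrix (Y.J × Y'.J) (Y.J × Y'.J) (LL k))
    (B : Matrix (Y.J × Y'.J) (X.J × X'.J) (LL k)) => A * B) h1 h3).trans ?_
  refine e.trans ?_
  exact (congrArg (fun A : Matrix (X.J × X'.J) (X.J × X'.J) (LL k) => (ε ⊗ₖ ε') * A) h2).symm

theorem eqv_fac (s : Fin 4) :
    Eqv (EF k s) (QF k s) (qeps (al k (X (s, false))) (al k (X (s, true)))) := by
  intro a
  have h1 : ((QF k s).rho a).map (algebraMap k (LL k)) =
      (qrho (code a s)).map (Int.cast : ℤ → LL k) := by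
    ext i j
    exact map_intCast (algebraMap k (LL k)) _
  have h2 : (qeps (al k (X (s, false))) (al k (X (s, true)))).map (ga k a) =
      qeps (ga k a (al k (X (s, false)))) (ga k a (al k (X (s, true)))) := by
    ext i j
    fin_cases i <;> cases j <;> simp [qeps]
  have h3 : ((EF k s).rho a).map (algebraMap k (LL k)) = 1 := by
    exact Matrix.map_one _ (map_zero _) (map_one _)
  have h4 := qeps_eqv (al k (X (s, false))) (al k (X (s, true))) (code a s)
  have h5 : ga k a (al k (X (s, false))) = (match code a s with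
      | (false, false) => al k (X (s, false))
      | (true, false) => al k (X (s, true))
      | (false, true) => al k (X (s, false))
      | (true, true) => -al k (X (s, true))) := by
    refine (ga_algebraMap k a _).trans ?_
    rw [sb_x]
    rcases code a s with ⟨b, c⟩
    cases b <;> cases c <;> simp [al]
  have h6 : ga k a (al k (X (s, true))) = (match code a s with
      | (false, false) => al k (X (s, true))
      | (true, false) => al k (X (s, false))
      | (false, true) => -al k (X (s, true))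
      | (true, true) => al k (X (s, false))) := by
    refine (ga_algebraMap k a _).trans ?_
    rw [sb_y]
    rcases code a s with ⟨b, c⟩
    cases b <;> cases c <;> simp [al]
  rw [h5, h6] at h2
  refine (congrArg₂ (fun (A : Matrix (Fin 8) (Fin 8) (LL k))
    (B : Matrix (Fin 8) Bool (LL k)) => A * B) h1 h2).trans ?_
  refine h4.trans ?_
  refine (Matrix.mul_one _).symm.trans ?_
  exact (congrArg (fun A : Matrix Bool Bool (LL k) =>
    qeps (al k (X (s, false))) (al k (X (s, true))) * A) h3).symm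

theorem eqv_epsY : Eqv (EY k) (QY k) (epsY k) :=
  (((eqv_fac 0).tens (eqv_fac 1)).tens (eqv_fac 2)).tens (eqv_fac 3)

theorem fs_ne_zero (σ : Finset GW) : fs k σ ≠ 0 :=
  Finset.prod_ne_zero_iff.mpr fun w _ => fw_ne_zero k w.1

theorem heqQ : LinFac.{u} → FacHEq.{u} → TensHEq.{u} → AvLem.{u} → HEqQ.{u} := by
  intro hL hF hT hA k _ _ h2
  have H0 : ∀ σ : Finset GW, σ.Nonempty → HEq0 (EY k) (QY k) (epsY k) (fs k σ) := by
    intro σ hσ
    have f : ∀ s, HEq0 (EF k s) (QF k s) (qeps (al k (X (s, false))) (al k (X (s, true))))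
        (fs k σ) := by
      intro s
      obtain ⟨κ, hκ⟩ := hL k σ hσ s
      exact hF k s κ _ (fs_ne_zero σ) hκ
    exact hT k _ _ _ _ _ _ _ (hT k _ _ _ _ _ _ _ (hT k _ _ _ _ _ _ _ (f 0) (f 1)) (f 2)) (f 3)
  have hne : (Finset.univ : Finset GW).Nonempty := ⟨w0, Finset.mem_univ _⟩
  set ε : (EY k).G.V →ₗ[LL k] (QY k).G.V := YObj.lin (X := EY k) (Y := QY k) (epsY k) with hε
  have hεmat : YObj.mat (X := EY k) (Y := QY k) ε = epsY k := mat_lin' _
  have hεH : ∀ σ : Finset GW, σ.Nonempty → ε ∈ (EY k).H (QY k) σ := by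
    intro σ hσ
    refine ⟨fun i j => ?_, fun a => ?_⟩
    · rw [hεmat]
      exact ⟨((H0 σ hσ).1 i j).1, ((H0 σ hσ).1 i j).2.1⟩
    · rw [hεmat]
      exact eqv_epsY a
  have hεd : ε ∘ₗ (EY k).G.d = (QY k).G.d ∘ₗ ε := by
    apply YObj.mat_injective
    rw [YObj.mat_comp, YObj.mat_comp, YObj.mat_d, YObj.mat_d, hεmat]
    exact (H0 _ hne).2.1
  refine ⟨hεH, isDeg_lin 0 _ fun i j => ((H0 _ hne).1 i j).2.2, hεd, ?_⟩
  intro σ hσ
  obtain ⟨_, _, r0, t0, hr, ht, hrd, hrε, hht⟩ := H0 σ hσ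
  obtain ⟨A1, A2, A3, A4, A5, A6, A7⟩ := hA k h2 (QY k) (EY k)
  obtain ⟨C1, C2, C3, C4, C5, C6, C7⟩ := hA k h2 (QY k) (QY k)
  obtain ⟨_, _, _, _, D5, _, _⟩ := hA k h2 (EY k) (EY k)
  set rL : (QY k).G.V →ₗ[LL k] (EY k).G.V := YObj.lin (X := QY k) (Y := EY k) r0 with hrL
  set tL : (QY k).G.V →ₗ[LL k] (QY k).G.V := YObj.lin (X := QY k) (Y := QY k) t0 with htL
  have hrmat : YObj.mat (X := QY k) (Y := EY k) rL = r0 := mat_lin' _
  have htmat : YObj.mat (X := QY k) (Y := QY k) tL = t0 := mat_lin' _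
  have dQ : (QY k).G.d ∈ (QY k).H (QY k) σ := (ysys k).d_mem (QY k) σ
  have dE : (EY k).G.d ∈ (EY k).H (EY k) σ := (ysys k).d_mem (EY k) σ
  have idE : (LinearMap.id : (EY k).G.V →ₗ[LL k] (EY k).G.V) ∈ (EY k).H (EY k) σ :=
    (ysys k).id_mem (EY k) σ
  have idQ : (LinearMap.id : (QY k).G.V →ₗ[LL k] (QY k).G.V) ∈ (QY k).H (QY k) σ :=
    (ysys k).id_mem (QY k) σ
  have e1 : rL ∘ₗ (QY k).G.d = (EY k).G.d ∘ₗ rL := by
    apply YObj.mat_injective
    rw [YObj.mat_comp, YObj.mat_comp, YObj.mat_d, YObj.mat_d, hrmat]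
    exact hrd
  have e2 : rL ∘ₗ ε = LinearMap.id := by
    apply YObj.mat_injective
    rw [YObj.mat_comp, YObj.mat_id, hrmat, hεmat]
    exact hrε
  have e3 : LinearMap.id - ε ∘ₗ rL = (QY k).G.d ∘ₗ tL + tL ∘ₗ (QY k).G.d := by
    apply YObj.mat_injective
    rw [mat_sub', YObj.mat_add, YObj.mat_comp, YObj.mat_comp, YObj.mat_comp, YObj.mat_id,
      YObj.mat_d, hrmat, hεmat, htmat]
    exact hht
  refine ⟨av (QY k) (EY k) rL, A1 σ rL (fun i j => ?_), av (QY k) (QY k) tL,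
    C1 σ tL (fun i j => ?_), A2 0 rL (isDeg_lin 0 _ fun i j => (hr i j).2.2),
    C2 (-1) tL (isDeg_lin (-1) _ fun i j => (ht i j).2.2), ?_, ?_, ?_⟩
  · rw [hrmat]
    exact ⟨(hr i j).1, (hr i j).2.1⟩
  · rw [htmat]
    exact ⟨(ht i j).1, (ht i j).2.1⟩
  · have h3 := A7 (QY k) σ rL (QY k).G.d dQ
    have h4 := A6 (EY k) σ rL (EY k).G.d dE
    exact h3.symm.trans ((congrArg _ e1).trans h4)
  · have h3 := A7 (EY k) σ rL ε (hεH σ hσ)
    exact h3.symm.trans ((congrArg _ e2).trans (D5 σ _ idE))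
  · have h3 := A6 (QY k) σ rL ε (hεH σ hσ)
    have h4 := C6 (QY k) σ tL (QY k).G.d dQ
    have h5 := C7 (QY k) σ tL (QY k).G.d dQ
    have h6 := C3 ((QY k).G.d ∘ₗ tL) (tL ∘ₗ (QY k).G.d)
    have h7 := C3 LinearMap.id ((-1 : ℤ) • (ε ∘ₗ rL))
    have h8 := C4 (-1) (ε ∘ₗ rL)
    have h9 := C5 σ _ idQ
    have h10 : LinearMap.id + (-1 : ℤ) • (ε ∘ₗ rL) = LinearMap.id - ε ∘ₗ rL := by
      rw [neg_one_smul, sub_eq_add_neg]
    rw [h10, e3, h6, h8, h3, h4, h5, h9, neg_one_smul, ← sub_eq_add_neg] at h7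
    exact h7.symm

end

end Pool.Agent.Helper43.RZ
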